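import Mathlib
import Pool.Agent.Y616.CQ.Main

/-!
# Finding cliques in the random graph with `n ^ θ` adaptive queries: all exponents

The largest clique of `G(n, 1/2)` which can be found with high probability by a randomised
adaptive algorithm with `n ^ θ` queries, up to powers of `log n`, has
`(min (3 θ / 2) (1 + θ / 2) + o(1)) log₂ n` vertices, for every exponent `0 < θ ≤ 2`. For `θ = 1`
this is the answer `c* = 3 / 2` to the question.

Upper bound: the theorem for `θ = 1` of the starting files (`Pool/Agent/H761R3/CQ`) is used in the
form of a core estimate with a polynomially small probability; an algorithm with `n ^ θ` queries on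
`n` vertices, `θ ≥ 1`, is turned into an algorithm with about `n ^ θ` queries on `n ^ θ` vertices by
greedy steps in front of it (query all pairs at a vertex, pass to the first half of its
neighbours), each of which finds one more vertex of the clique and costs only a factor `1/2` of
the probability; for `θ ≤ 1` the vertices are renamed in the order of their appearance.
Lower bound: greedy steps followed by exhaustive search, with a second moment computation.

Authors of the parts: helper616 (statements, assembly and all parts not named here),
helper457 (renaming of the vertices), helper543 (clique number of the random graph).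
-/

namespace Pool.Agent.Results.MP_07f5c7_lc.AllExponents

open Filter MeasureTheory

/-- (1) For every `0 < θ ≤ 2` the supremum of the `c` for which cliques of size `c log₂ n` can be
found with `C n ^ θ (log n) ^ C` queries is `min (3 θ / 2) (1 + θ / 2)`. (2) For `θ = 1` it is
`3 / 2`. (3) For every `θ > 0` and `c` above this value there is `η > 0` such that for all large
`n` every randomised algorithm with at most `n ^ (θ + η)` queries finds a clique of size
`c log₂ n` with probability at most `n ^ (- min θ 1)`. -/
theorem result :
    (∀ θ : ℝ, 0 < θ → θ ≤ 2 →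
      IsLUB {c : ℝ | Y616CQ.AchievableAt θ c} (min (3 * θ / 2) (1 + θ / 2))) ∧
    IsLUB {c : ℝ | Y616CQ.AchievableAt 1 c} (3 / 2) ∧
    ∀ θ c : ℝ, 0 < θ → min (3 * θ / 2) (1 + θ / 2) < c → ∃ η : ℝ, 0 < η ∧
      ∀ᶠ n : ℕ in atTop, ∀ q : ℕ, (q : ℝ) ≤ (n : ℝ) ^ (θ + η) →
        ∀ (Ω : Type) [MeasurableSpace Ω] (μ : Measure Ω) [IsProbabilityMeasure μ]
          (A : Ω → H761CQ.Alg n),
          ∫⁻ ω, ENNReal.ofReal (H761CQ.succ (A ω) q (c * Real.logb 2 n)) ∂μ ≤
            ENNReal.ofReal ((n : ℝ) ^ (-min θ 1)) := by
  refine ⟨Y616CQ.main.1, ?_, Y616CQ.main.2⟩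
  have h := Y616CQ.main.1 1 one_pos (by norm_num)
  have h1 : min (3 * (1 : ℝ) / 2) (1 + 1 / 2) = 3 / 2 := by norm_num
  rwa [h1] at h

end Pool.Agent.Results.MP_07f5c7_lc.AllExponents
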